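import Pool.Agent.Helper831.VN.Fin
import Pool.Agent.Helper277.Sig
import Pool.Agent.Helper655.VNLight

/-!
# `L²`-Betti numbers of kernels of epimorphisms to `ℤ` are polytope thicknesses

For every group `Γ` of type F satisfying the Atiyah Conjecture and every `n` with
`b_n^{(2)}(Γ) = 0` there is a polytope `P ⊂ H_1(Γ; ℝ)` such that
`b_n^{(2)}(ker φ) = th_φ(P)` for every epimorphism `φ : Γ → ℤ`.
-/

set_option autoImplicit false

namespace Pool.Agent.Results.MP_f08bf1_al.PolytopeThickness

open L2B TN970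

/-- `t` is the thickness `max {φ(x) - φ(y) | x, y ∈ conv P}` of the polytope `conv P` in the
direction `φ`. -/
def IsThickness {V : Type} [AddCommGroup V] [Module ℝ V] (φ : V →ₗ[ℝ] ℝ) (P : Finset V) (t : ℝ) :
    Prop :=
  IsGreatest {s : ℝ | ∃ x ∈ convexHull ℝ (P : Set V), ∃ y ∈ convexHull ℝ (P : Set V),
    s = φ x - φ y} t

/-- Let `Γ` be a finitely generated group of type FL (in particular any group of type F) which
satisfies the Atiyah Conjecture, and let `n` be such that `b_n^{(2)}(Γ) = 0`. Then there is a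
polytope `conv P` in `H_1(Γ; ℝ)` whose thickness in the direction `φ` is `b_n^{(2)}(ker φ)`, for
all epimorphisms `φ : Γ → ℤ`. -/
theorem result (Γ : Type) [Group Γ] [Group.FG Γ] (hF : TypeFL Γ) (hA : Atiyah Γ) (n : ℕ)
    (h0 : l2Betti Γ n = 0) :
    ∃ P : Finset (H1R Γ), P.Nonempty ∧ ∀ φ : Γ →* Multiplicative ℤ, Function.Surjective φ →
      ∃ t : ℝ, IsThickness (linF φ) P t ∧ l2Betti φ.ker n = ENNReal.ofReal t :=
  main_of_sig Pool.Agent.Helper277.Sig.sig (fun _ _ g => Pool.Agent.Helper277.Sig.sig_canL g)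
    (fun _ _ T => Pool.Agent.Helper277.Sig.sig_tr T) hF
    (Pool.Agent.Helper655.VNLight.atiyah_light hA) n h0

end Pool.Agent.Results.MP_f08bf1_al.PolytopeThickness
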